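import Pool.Agent.H80.Lk4

set_option autoImplicit false

namespace Pool.Agent.Results.MP_3c9300_gt.Yes

open MeasureTheory Pool.Agent.H80.LkD

theorem result (n : ℕ) (K : Set (Fin n → ℝ)) (hK : IsCompact K) (hc : Convex ℝ K)
    (hi : (interior K).Nonempty) (σ : Finset (Fin n)) (_hσ : σ ≠ Finset.univ) (m s : ℕ)
    (hm : 1 ≤ m) (hs : 1 ≤ s) (ρ : Fin m → Finset (Fin n)) (h1 : ∀ j, ρ j ⊆ σ)
    (h2 : ∀ i ∈ σ, (Finset.univ.filter fun j => i ∈ ρ j).card = s) :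
    (∏ j, ((Nat.factorial (σ.card - (ρ j).card) : ℕ) : ENNReal)) /
          ((Nat.factorial σ.card : ℕ) : ENNReal) ^ ((m : ℤ) - s) * ∏ j, secVol K (ρ j) 0 ≤
      volume K ^ ((m : ℤ) - s) * (⨆ x, secVol K σ x) ^ s :=
  Pool.Agent.H80.Lk.main' K hK hc hi σ m s hm hs ρ h1 h2

end Pool.Agent.Results.MP_3c9300_gt.Yes
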